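import Pool.Agent.W425.BF.Stm

/-! BF-IA: generating functions of the cones of the normal fan (helper489). -/

set_option autoImplicit false

namespace Pool.Agent.W489.BF

open Pool.Agent.W426.SM (gord face IsRay)
open Pool.Agent.W803.SM (filt gord_le exists_gord filt_nonempty mem_filt summable_half)
open Pool.Agent.W425.BF

variable {n k : ℕ}

theorem key2 (h1 : TaskGF) (m : Fin k → Fin n → ℕ) (τ : Finset (Fin k)) (hτ : τ.Nonempty) :
    ∃ (j0 : Fin k) (T : ℕ) (ray : Fin T → Fin n → ℕ) (P : MvPolynomial (Fin n) ℤ),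
      j0 ∈ τ ∧ (∀ q, IsRay m (ray q)) ∧ (∀ q, ∑ x, ray q x * m j0 x = gord m (ray q)) ∧
      ∀ y : Fin n → ℂ, (∀ x, ‖y x‖ < 1) →
        (∑' u : ({u | filt m u = τ} : Set (Fin n → ℕ)), ∏ x, y x ^ (u : Fin n → ℕ) x) *
          ∏ q, (1 - ∏ x, y x ^ ray q x) = MvPolynomial.aeval y P := by
  classical
  obtain ⟨j0, hj0⟩ := hτ
  obtain ⟨T, ray, P, hray, hP⟩ := h1 (ι := Fin k ⊕ Fin k)
    (Sum.elim (fun l x => (m l x : ℤ) - m j0 x)
      (fun l x => if l ∈ τ then -((m l x : ℤ) - m j0 x) else 0))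
    (Sum.elim (fun l => if l ∈ τ then 0 else 1) (fun _ => 0))
  have hsum : ∀ (l : Fin k) (u : Fin n → ℕ), ∑ i, ((m l i : ℤ) - m j0 i) * (u i : ℤ) =
      ((∑ i, u i * m l i : ℕ) : ℤ) - ((∑ i, u i * m j0 i : ℕ) : ℤ) := by
    intro l u
    push_cast
    rw [← Finset.sum_sub_distrib]
    refine Finset.sum_congr rfl fun i _ => ?_
    ring
  have hsum2 : ∀ (l : Fin k) (u : Fin n → ℕ),
      ∑ i, (if l ∈ τ then -((m l i : ℤ) - m j0 i) else 0) * (u i : ℤ) =
      if l ∈ τ then -(((∑ i, u i * m l i : ℕ) : ℤ) - ((∑ i, u i * m j0 i : ℕ) : ℤ)) else 0 := by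
    intro l u
    split_ifs with hl
    · rw [← hsum l u, ← Finset.sum_neg_distrib]
      refine Finset.sum_congr rfl fun i _ => ?_
      ring
    · simp
  have hset : ({u | filt m u = τ} : Set (Fin n → ℕ)) =
      Pol (Sum.elim (fun l x => (m l x : ℤ) - m j0 x)
      (fun l x => if l ∈ τ then -((m l x : ℤ) - m j0 x) else 0))
    (Sum.elim (fun l => if l ∈ τ then 0 else 1) (fun _ => 0)) := by
    ext u
    simp only [Set.mem_ofPred_eq, Pol, Sum.forall, Sum.elim_inl, Sum.elim_inr, hsum, hsum2]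
    constructor
    · intro h
      have h0 : ∑ i, u i * m j0 i = gord m u := mem_filt.1 (h ▸ hj0)
      refine ⟨fun j => ?_, fun j => ?_⟩
      · split_ifs with hj
        · have : ∑ i, u i * m j i = gord m u := mem_filt.1 (h ▸ hj)
          rw [this, h0, sub_self]
        · have h2 : ∑ i, u i * m j i ≠ gord m u := fun h3 => hj (h ▸ mem_filt.2 h3)
          have h3 := gord_le m u j
          rw [h0]
          omega
      · split_ifs with hj
        · have : ∑ i, u i * m j i = gord m u := mem_filt.1 (h ▸ hj)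
          rw [this, h0, sub_self, neg_zero]
        · exact le_refl _
    · rintro ⟨ha, hb⟩
      have h0 : ∑ i, u i * m j0 i = gord m u := by
        obtain ⟨j, hj⟩ := exists_gord (Fin.pos j0) m u
        have h2 := ha j
        have h3 := gord_le m u j0
        have h4 : (0 : ℤ) ≤ if j ∈ τ then 0 else 1 := by split_ifs <;> norm_num
        omega
      ext j
      rw [mem_filt]
      constructor
      · intro h
        by_contra hj
        have h2 := ha j
        rw [if_neg hj] at h2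
        omega
      · intro hj
        have h2 := hb j
        have h3 := gord_le m u j
        rw [if_pos hj] at h2
        omega
  have hmin : ∀ q, ∑ i, ray q i * m j0 i = gord m (ray q) := by
    intro q
    obtain ⟨j, hj⟩ := exists_gord (Fin.pos j0) m (ray q)
    have h2 := (hray q).2.1 (Sum.inl j)
    have h3 := gord_le m (ray q) j0
    rw [Sum.elim_inl, hsum] at h2
    omega
  have hface : ∀ q (j : Fin k) (u : Fin n → ℚ),
      (∀ j j', face m (ray q) j → face m (ray q) j' → ∑ i, u i * m j i = ∑ i, u i * m j' i) →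
      ∑ i, ((m j i : ℤ) - m j0 i) * (ray q i : ℤ) = 0 →
      ∑ i, (((m j i : ℤ) - m j0 i : ℤ) : ℚ) * u i = 0 := by
    intro q j u hu2 hj
    rw [hsum] at hj
    have hfj : face m (ray q) j := by
      have := hmin q
      show ∑ i, ray q i * m j i = gord m (ray q)
      omega
    have h2 := hu2 j j0 hfj (hmin q)
    have h3 : ∑ i, (((m j i : ℤ) - m j0 i : ℤ) : ℚ) * u i =
        ∑ i, u i * m j i - ∑ i, u i * m j0 i := by
      rw [← Finset.sum_sub_distrib]
      refine Finset.sum_congr rfl fun i _ => ?_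
      push_cast
      ring
    rw [h3, h2, sub_self]
  refine ⟨j0, T, ray, P, hj0, fun q => ⟨(hray q).1, fun u hu hu2 => ?_⟩, hmin, fun y hy => ?_⟩
  · refine (hray q).2.2 u hu ?_
    rw [Sum.forall]
    refine ⟨fun j hj => ?_, fun j hj => ?_⟩
    · simp only [Sum.elim_inl] at hj ⊢
      exact hface q j u hu2 hj
    · simp only [Sum.elim_inr] at hj ⊢
      by_cases hjτ : j ∈ τ
      · simp only [if_pos hjτ] at hj ⊢
        have hj' : ∑ i, ((m j i : ℤ) - m j0 i) * (ray q i : ℤ) = 0 := by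
          have : ∑ i, -((m j i : ℤ) - m j0 i) * (ray q i : ℤ) =
              -∑ i, ((m j i : ℤ) - m j0 i) * (ray q i : ℤ) := by
            rw [← Finset.sum_neg_distrib]
            refine Finset.sum_congr rfl fun i _ => ?_
            ring
          rw [this] at hj
          omega
        have h2 := hface q j u hu2 hj'
        have h3 : ∑ i, ((-((m j i : ℤ) - m j0 i) : ℤ) : ℚ) * u i =
            -∑ i, (((m j i : ℤ) - m j0 i : ℤ) : ℚ) * u i := by
          rw [← Finset.sum_neg_distrib]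
          refine Finset.sum_congr rfl fun i _ => ?_
          push_cast
          ring
        rw [h3, h2, neg_zero]
      · simp only [if_neg hjτ]
        simp
  · rw [← hP y hy]
    congr 1
    exact tsum_congr_set_coe (fun u : Fin n → ℕ => ∏ x, y x ^ u x) hset

/-- evaluation -/
noncomputable def Ev (z t : ℂ) : Polynomial (Polynomial ℂ) →+* ℂ :=
  Polynomial.eval₂RingHom (Polynomial.evalRingHom z) t

theorem ev2_eq (A : Polynomial (Polynomial ℂ)) (z t : ℂ) : ev2 A z t = Ev z t A := rfl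

theorem Ev_C (z t : ℂ) (a : Polynomial ℂ) : Ev z t (Polynomial.C a) = a.eval z := by
  simp [Ev]

theorem Ev_X (z t : ℂ) : Ev z t Polynomial.X = t := by
  simp [Ev]

theorem Ev_map (z t : ℂ) (g : Polynomial ℂ) :
    Ev z t (Polynomial.map Polynomial.C g) = g.eval t := by
  simp only [Ev, Polynomial.coe_eval₂RingHom, Polynomial.eval₂_map]
  have : (Polynomial.evalRingHom z).comp Polynomial.C = RingHom.id ℂ := by
    ext x
    all_goals simp
  rw [this]
  rfl

/-- the variables -/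
noncomputable def yy (p : ℕ) (c : Fin n → ℕ) (mm : Fin n → ℕ) (z t : ℂ) (x : Fin n) : ℂ :=
  (p : ℂ)⁻¹ * z ^ c x * t ^ mm x

/-- the variables as polynomials -/
noncomputable def yp (p : ℕ) (c : Fin n → ℕ) (mm : Fin n → ℕ) (x : Fin n) :
    Polynomial (Polynomial ℂ) :=
  Polynomial.C (Polynomial.C ((p : ℂ)⁻¹) * Polynomial.X ^ c x) * Polynomial.X ^ mm x

theorem Ev_yp (p : ℕ) (c : Fin n → ℕ) (mm : Fin n → ℕ) (z t : ℂ) (x : Fin n) :
    Ev z t (yp p c mm x) = yy p c mm z t x := by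
  simp only [yp, yy, map_mul, map_pow, Ev_C, Ev_X, Polynomial.eval_mul, Polynomial.eval_C,
    Polynomial.eval_pow, Polynomial.eval_X]

theorem Ev_aeval (z t : ℂ) (f : Fin n → Polynomial (Polynomial ℂ)) (P : MvPolynomial (Fin n) ℤ) :
    Ev z t (MvPolynomial.aeval f P) = MvPolynomial.aeval (fun x => Ev z t (f x)) P :=
  MvPolynomial.comp_aeval_apply f (Ev z t).toIntAlgHom P

/-- the weight as a polynomial -/
noncomputable def wp (p : ℕ) (c : Fin n → ℕ) (N : ℕ) (u : Fin n → ℕ) :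
    Polynomial (Polynomial ℂ) :=
  Polynomial.C (Polynomial.C ((p : ℂ)⁻¹ ^ (∑ x, u x)) * Polynomial.X ^ (∑ x, c x * u x)) *
    Polynomial.X ^ N

theorem Ev_wp (p : ℕ) (c : Fin n → ℕ) (N : ℕ) (u : Fin n → ℕ) (z t : ℂ) :
    Ev z t (wp p c N u) = W2 p c N z t u := by
  simp only [wp, W2, map_mul, map_pow, Ev_C, Ev_X, Polynomial.eval_mul, Polynomial.eval_C,
    Polynomial.eval_pow, Polynomial.eval_X]

theorem W2_eq (p : ℕ) (c : Fin n → ℕ) (mm : Fin n → ℕ) (z t : ℂ) (u : Fin n → ℕ) (N : ℕ)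
    (hN : ∑ x, u x * mm x = N) : W2 p c N z t u = ∏ x, yy p c mm z t x ^ u x := by
  subst hN
  unfold W2 yy
  simp only [mul_pow, ← pow_mul]
  rw [Finset.prod_mul_distrib, Finset.prod_mul_distrib, Finset.prod_pow_eq_pow_sum,
    Finset.prod_pow_eq_pow_sum, Finset.prod_pow_eq_pow_sum]
  congr 2
  refine Finset.sum_congr rfl fun x _ => ?_
  ring

theorem norm_pinv {p : ℕ} (hp : 2 ≤ p) : ‖((p : ℂ)⁻¹)‖ ≤ 1 / 2 := by
  rw [norm_inv, Complex.norm_natCast, one_div]
  have : (2 : ℝ) ≤ p := by exact_mod_cast hp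
  exact inv_anti₀ (by norm_num) this

theorem norm_yy {p : ℕ} (hp : 2 ≤ p) (c : Fin n → ℕ) (mm : Fin n → ℕ) {z t : ℂ} (hz : ‖z‖ ≤ 1)
    (ht : ‖t‖ ≤ 1) (x : Fin n) : ‖yy p c mm z t x‖ < 1 := by
  unfold yy
  rw [norm_mul, norm_mul, norm_pow, norm_pow]
  have h1 := norm_pinv hp
  have h2 : ‖z‖ ^ c x ≤ 1 := pow_le_one₀ (norm_nonneg _) hz
  have h3 : ‖t‖ ^ mm x ≤ 1 := pow_le_one₀ (norm_nonneg _) ht
  have h4 : ‖(p : ℂ)⁻¹‖ * ‖z‖ ^ c x ≤ 1 / 2 := by
    calc ‖(p : ℂ)⁻¹‖ * ‖z‖ ^ c x ≤ 1 / 2 * 1 :=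
          mul_le_mul h1 h2 (by positivity) (by norm_num)
      _ = 1 / 2 := by ring
  calc ‖(p : ℂ)⁻¹‖ * ‖z‖ ^ c x * ‖t‖ ^ mm x ≤ 1 / 2 * 1 :=
        mul_le_mul h4 h3 (by positivity) (by norm_num)
    _ < 1 := by norm_num

theorem norm_W2 {p : ℕ} (hp : 2 ≤ p) (c : Fin n → ℕ) (N : ℕ) {z t : ℂ} (hz : ‖z‖ ≤ 1)
    (ht : ‖t‖ ≤ 1) (u : Fin n → ℕ) : ‖W2 p c N z t u‖ ≤ ∏ x, ((1 : ℝ) / 2) ^ u x := by
  unfold W2
  rw [norm_mul, norm_mul, norm_pow, norm_pow, norm_pow, Finset.prod_pow_eq_pow_sum]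
  have h1 := norm_pinv hp
  have h2 : ‖z‖ ^ (∑ x, c x * u x) ≤ 1 := pow_le_one₀ (norm_nonneg _) hz
  have h3 : ‖t‖ ^ N ≤ 1 := pow_le_one₀ (norm_nonneg _) ht
  have h4 : ‖(p : ℂ)⁻¹‖ ^ (∑ x, u x) ≤ (1 / 2) ^ (∑ x, u x) :=
    pow_le_pow_left₀ (norm_nonneg _) h1 _
  calc ‖(p : ℂ)⁻¹‖ ^ (∑ x, u x) * ‖z‖ ^ (∑ x, c x * u x) * ‖t‖ ^ N
      ≤ (1 / 2) ^ (∑ x, u x) * 1 * 1 := by
        refine mul_le_mul (mul_le_mul h4 h2 (by positivity) (by positivity)) h3
          (by positivity) (by positivity)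
    _ = (1 / 2) ^ (∑ x, u x) := by ring

theorem main : TaskIA := by
  intro h1 n k m hk
  choose j0 T ray P hj0 hray hmin hP using fun τ : {τ : Finset (Fin k) // τ.Nonempty} =>
    key2 h1 m τ.1 τ.2
  set E := (Σ τ : {τ : Finset (Fin k) // τ.Nonempty}, Fin (T τ)) with hE
  set ψ : E ≃ Fin (Fintype.card E) := Fintype.equivFin E with hψ
  refine ⟨Fintype.card E, fun q => ray (ψ.symm q).1 (ψ.symm q).2, fun q => hray _ _, ?_⟩
  intro p hp c γ
  set Dp : {τ : Finset (Fin k) // τ.Nonempty} → Polynomial (Polynomial ℂ) :=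
    fun τ => ∏ q, (1 - wp p c (gord m (ray τ q)) (ray τ q)) with hDp
  refine ⟨∑ τ : {τ : Finset (Fin k) // τ.Nonempty},
    Polynomial.map Polynomial.C (γ τ.1) *
      MvPolynomial.aeval (fun x => yp p c (m (j0 τ)) x) (P τ) *
      ∏ τ' ∈ Finset.univ.erase τ, Dp τ', ?_⟩
  intro z t hz ht
  set D : {τ : Finset (Fin k) // τ.Nonempty} → ℂ :=
    fun τ => ∏ q, (1 - W2 p c (gord m (ray τ q)) z t (ray τ q)) with hD
  have hDE : ∀ τ, Ev z t (Dp τ) = D τ := by
    intro τ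
    simp only [hDp, hD, map_prod, map_sub, map_one, Ev_wp]
  rw [ev2_eq, map_sum]
  simp only [map_mul, Ev_map, Ev_aeval, Ev_yp, map_prod, hDE]
  set g : Finset (Fin k) → ℂ := fun τ => (γ τ).eval t with hg
  have hsumm : Summable (fun u : Fin n → ℕ => W2 p c (gord m u) z t u * g (filt m u)) := by
    refine Summable.of_norm_bounded
      (g := fun u : Fin n → ℕ => (∏ i, ((1 : ℝ) / 2) ^ u i) * ∑ τ : Finset (Fin k), ‖g τ‖)
      (summable_half.mul_right _) fun u => ?_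
    rw [norm_mul]
    refine mul_le_mul (norm_W2 hp c _ hz ht u) ?_ (norm_nonneg _)
      (Finset.prod_nonneg fun i _ => by positivity)
    exact Finset.single_le_sum (f := fun τ => ‖g τ‖) (fun τ _ => norm_nonneg _)
      (Finset.mem_univ (filt m u))
  have hsplit : ∑' u : Fin n → ℕ, W2 p c (gord m u) z t u * g (filt m u) =
      ∑ τ : {τ : Finset (Fin k) // τ.Nonempty},
        (∑' u : ({u | filt m u = τ.1} : Set (Fin n → ℕ)),
          ∏ x, yy p c (m (j0 τ)) z t x ^ (u : Fin n → ℕ) x) * g τ.1 := by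
    set φ : (Fin n → ℕ) → {τ : Finset (Fin k) // τ.Nonempty} :=
      fun u => ⟨filt m u, filt_nonempty hk m u⟩ with hφ
    have h3 := (Equiv.sigmaFiberEquiv φ).tsum_eq
      (fun u : Fin n → ℕ => W2 p c (gord m u) z t u * g (filt m u))
    have h4 : Summable (fun x : (Σ τ, {u // φ u = τ}) =>
        W2 p c (gord m ((Equiv.sigmaFiberEquiv φ) x)) z t ((Equiv.sigmaFiberEquiv φ) x) *
          g (filt m ((Equiv.sigmaFiberEquiv φ) x))) :=
      (Equiv.summable_iff (Equiv.sigmaFiberEquiv φ)).2 hsumm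
    rw [← h3, h4.tsum_sigma, tsum_fintype]
    refine Finset.sum_congr rfl fun τ _ => ?_
    rw [← tsum_mul_right]
    have h5 : ({u | filt m u = τ.1} : Set (Fin n → ℕ)) = {u | φ u = τ} := by
      ext u
      simp only [Set.mem_ofPred_eq, hφ]
      exact ⟨fun h => Subtype.ext h, fun h => congrArg Subtype.val h⟩
    rw [tsum_congr_set_coe (fun u : Fin n → ℕ =>
      (∏ x, yy p c (m (j0 τ)) z t x ^ u x) * g τ.1) h5]
    refine tsum_congr fun u => ?_
    have h6 : filt m u.1 = τ.1 := congrArg Subtype.val u.2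
    show W2 p c (gord m u.1) z t u.1 * g (filt m u.1) = _
    rw [h6, W2_eq p c (m (j0 τ)) z t u.1 _ (mem_filt.1 (by rw [h6]; exact hj0 τ))]
  have hprod : ∏ q : Fin (Fintype.card E),
      (1 - W2 p c (gord m (ray (ψ.symm q).1 (ψ.symm q).2)) z t
        (ray (ψ.symm q).1 (ψ.symm q).2)) = ∏ τ, D τ := by
    rw [Equiv.prod_comp ψ.symm (fun x : E => 1 - W2 p c (gord m (ray x.1 x.2)) z t (ray x.1 x.2)),
      Fintype.prod_sigma]
  show (∑' u : Fin n → ℕ, W2 p c (gord m u) z t u * g (filt m u)) *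
    ∏ q : Fin (Fintype.card E), (1 - W2 p c (gord m (ray (ψ.symm q).1 (ψ.symm q).2)) z t
        (ray (ψ.symm q).1 (ψ.symm q).2)) = _
  rw [hprod, hsplit, Finset.sum_mul]
  refine Finset.sum_congr rfl fun τ _ => ?_
  rw [← Finset.mul_prod_erase Finset.univ D (Finset.mem_univ τ)]
  have h7 : (∑' u : ({u | filt m u = τ.1} : Set (Fin n → ℕ)),
      ∏ x, yy p c (m (j0 τ)) z t x ^ (u : Fin n → ℕ) x) * D τ =
      MvPolynomial.aeval (yy p c (m (j0 τ)) z t) (P τ) := by
    rw [← hP τ (yy p c (m (j0 τ)) z t) (norm_yy hp c _ hz ht)]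
    congr 1
    refine Finset.prod_congr rfl fun q _ => ?_
    rw [W2_eq p c (m (j0 τ)) z t _ _ (hmin τ q)]
  have h8 : (fun x => yy p c (m (j0 τ)) z t x) = yy p c (m (j0 τ)) z t := rfl
  rw [h8, ← h7]
  ring

end Pool.Agent.W489.BF
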